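import Pool.Agent.Helper58.DH.Goals

/-! Packet H_BND of project DH: a priori bounds for the positive solutions. -/

set_option autoImplicit false

namespace Pool.Agent.Helper46.DH

open Pool.Agent.Helper58.DH

theorem h_bnd (h1 : Pool.Agent.Helper58.DH.Q_QTI) (h2 : Pool.Agent.Helper58.DH.Q_LOW)
    (h3 : Pool.Agent.Helper58.DH.Q_UPP) (h4 : Pool.Agent.Helper58.DH.H_EQN) :
    Pool.Agent.Helper58.DH.H_BND := by
  intro P Q M E B₀ hP hQ hM hPE hQE hsum hB₀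
  obtain ⟨hS, hd, hκ, hsys⟩ := h4.2 P Q M E hP hQ hM hPE hQE
  obtain ⟨κ, hκ0, hκe⟩ := hκ hsum
  obtain ⟨C, hC1, hC⟩ := h1 6 (dC P Q M E) (AC P Q M E) B₀ hS hd
  obtain ⟨δ, hδ0, hδ⟩ := h2 6 (dC P Q M E) (AC P Q M E) κ C hS hd hκ0 hC1 hκe
  obtain ⟨R, hR⟩ := h3 6 (dC P Q M E) (AC P Q M E) B₀ C hS hd hC1
  refine ⟨δ, R, hδ0, ?_⟩
  intro B hB w hw i
  obtain ⟨hB1, hB2⟩ := hB
  have hs := hsys B w hw
  have hub : ∀ e, (![1, 1, B, B, 1, 1] : Fin 6 → ℝ) e ≤ B₀ := by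
    intro e
    fin_cases e <;> simp <;> linarith
  have hlb : ∀ e, 1 ≤ (![1, 1, B, B, 1, 1] : Fin 6 → ℝ) e := by
    intro e
    fin_cases e <;> simp <;> linarith
  have hq := hC _ w hub hs
  exact ⟨hδ _ w hlb hs hq i, hR _ w hub hs hq i⟩

end Pool.Agent.Helper46.DH
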